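import Mathlib
import Pool.Agent.K7.H89.WE.G

/-!
# Waring's problem with `2 k + 1` variables, for almost all exponents

For a vector `c = (c_1, ..., c_s)` of real exponents we count the solutions of the inequality
`|x_1 ^ (c_1) + ... + x_s ^ (c_s) - τ| < η` in natural numbers `x_1, ..., x_s`. For `c_1 = ... = c_s = k`, a natural
number `τ` and `η ≤ 1` these are the representations of `τ` as a sum of `s` many `k`-th powers; thus
`G (k) ≤ 2 k + 1` says that for `s = 2 k + 1`, `η = 1` and `c = (k, ..., k)` there is a solution for all large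
natural numbers `τ`.

**Theorem.** For almost all `c` in `[2, ∞) ^ s` with `σ = 1 / c_1 + ... + 1 / c_s > 2` the following holds.

* For all `κ < σ / 2 - 1` the number of solutions is asymptotically equal to
  `2 η Γ (1 + 1 / c_1) ⋯ Γ (1 + 1 / c_s) / Γ (σ) τ ^ (σ - 1)` for `τ → ∞`, uniformly for `τ ^ (-κ) ≤ η ≤ 1`.
* All large natural numbers are integral parts of numbers `x_1 ^ (c_1) + ... + x_s ^ (c_s)`.

For instance `s = 2 k + 1` and `c` in `[k, k + 1 / 2) ^ s`: then `σ > 2`.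

Sketch of the proof. Let `S (α, c)` be the exponential sum over `α x ^ c`, `x < X = 3 ^ j` with `X ^ c` a bit larger
than `τ`, and `M (α, c)` the corresponding integral. On `x ≤ 1 / (c |α| x ^ (c - 1))` sum and integral agree up to
a bounded error. In the other dyadic (triadic) blocks the mean value of `|S|²` over `c` in a short interval is
`O (X ^ (1 + ε))`, by the first derivative test for the integrals over `c` of `e (α (x ^ c - y ^ c))`. As the
exponents are independent, this bounds the mean value over `c` of `|∏ S (α, c_i) - ∏ M (α, c_i)|`, for all `α`.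
Integrated against Fejér's kernel it is smaller than the expected number of solutions, by a power of `τ`, precisely
for `σ > 2` (and windows of length `τ ^ (-θ)` with `θ < σ / 2 - 1`), in a small box of exponents. By the
Borel-Cantelli lemma the number of solutions is close to the volume of the corresponding set for almost all `c` and
all large `τ` at the same time.
-/

set_option autoImplicit false

namespace Pool.Agent.Results.MP_efcac8_nt.AlmostAllExponents

open MeasureTheory Filter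

/-- The number of solutions `x` in natural numbers of the inequality
`|x_1 ^ (c_1) + ... + x_s ^ (c_s) - τ| < η`. -/
noncomputable def solutions {s : ℕ} (c : Fin s → ℝ) (τ η : ℝ) : ℕ :=
  Nat.card {x : Fin s → ℕ // |(∑ i, (x i : ℝ) ^ (c i)) - τ| < η}

/-- `σ = 1 / c_1 + ... + 1 / c_s`. -/
noncomputable def sigma {s : ℕ} (c : Fin s → ℝ) : ℝ := ∑ i, 1 / c i

/-- The constant `Γ (1 + 1 / c_1) ⋯ Γ (1 + 1 / c_s) / Γ (σ)`. -/
noncomputable def density {s : ℕ} (c : Fin s → ℝ) : ℝ := (∏ i, Real.Gamma (1 + 1 / c i)) / Real.Gamma (sigma c)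

/-- **Waring's problem with `2 k + 1` variables, for almost all exponents.** For almost all `c` in `ℝ ^ s` with all
`c_i ≥ 2` and `σ = 1 / c_1 + ... + 1 / c_s > 2`: for all `κ < σ / 2 - 1` the inequality
`|x_1 ^ (c_1) + ... + x_s ^ (c_s) - τ| < η` has
`(1 + o (1)) 2 η Γ (1 + 1 / c_1) ⋯ Γ (1 + 1 / c_s) / Γ (σ) τ ^ (σ - 1)` solutions in natural numbers, uniformly for
`τ ^ (-κ) ≤ η ≤ 1`; and all large natural numbers `n` are integral parts of sums `x_1 ^ (c_1) + ... + x_s ^ (c_s)`. -/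
theorem result (s : ℕ) :
    ∀ᵐ c : Fin s → ℝ, (∀ i, 2 ≤ c i) → 2 < sigma c →
      (∀ κ : ℝ, κ < sigma c / 2 - 1 → ∀ ε : ℝ, 0 < ε → ∃ τ₀ : ℝ, ∀ τ η : ℝ, τ₀ ≤ τ → τ ^ (-κ) ≤ η → η ≤ 1 →
        |(solutions c τ η : ℝ) - 2 * η * density c * τ ^ (sigma c - 1)| ≤
          ε * (2 * η * density c * τ ^ (sigma c - 1))) ∧
      ∃ n₀ : ℕ, ∀ n : ℕ, n₀ ≤ n → ∃ x : Fin s → ℕ, ⌊∑ i, (x i : ℝ) ^ (c i)⌋₊ = n := by
  filter_upwards [K7.H89.WE.main s] with c h1 h2 h3
  have hc0 : ∀ i, 0 < c i := fun i => by linarith [h2 i]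
  have hs0 : 0 < sigma c := by linarith
  have hdens : 0 < density c := by
    unfold density
    exact div_pos (Finset.prod_pos fun i _ => Real.Gamma_pos_of_pos (by have := hc0 i; positivity))
      (Real.Gamma_pos_of_pos hs0)
  have hV : K7.H89.WE.Vs c * K7.H89.WE.sg c = density c := K7.H89.WE.Vs_sg hc0 hs0
  have key : ∀ κ : ℝ, κ < sigma c / 2 - 1 → ∀ ε : ℝ, 0 < ε → ∃ τ₀ : ℝ, ∀ τ η : ℝ, τ₀ ≤ τ → τ ^ (-κ) ≤ η → η ≤ 1 →
        |(solutions c τ η : ℝ) - 2 * η * density c * τ ^ (sigma c - 1)| ≤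
          ε * (2 * η * density c * τ ^ (sigma c - 1)) := by
    intro κ hκ ε hε
    obtain ⟨τ₀, hτ₀⟩ := h1 h2 h3 κ hκ (ε * (2 * density c)) (by positivity)
    refine ⟨τ₀, fun τ η hτ hη hη1 => ?_⟩
    have h9 := hτ₀ τ η hτ hη hη1
    have e1 : 2 * η * density c * τ ^ (sigma c - 1) =
        2 * (K7.H89.WE.Vs c * K7.H89.WE.sg c) * (η * τ ^ (K7.H89.WE.sg c - 1)) := by
      rw [hV]
      unfold K7.H89.WE.sg sigma
      ring
    have e2 : ε * (2 * (K7.H89.WE.Vs c * K7.H89.WE.sg c) * (η * τ ^ (K7.H89.WE.sg c - 1))) =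
        ε * (2 * density c) * (η * τ ^ (K7.H89.WE.sg c - 1)) := by rw [hV]; ring
    rw [e1, e2]
    exact h9
  refine ⟨key, ?_⟩
  have hpos : 0 < sigma c / 2 - 1 := by linarith
  obtain ⟨κ, hκ0, hκ⟩ := exists_between hpos
  obtain ⟨τ₀, hτ₀⟩ := key κ hκ (1 / 2) (by norm_num)
  obtain ⟨τ₁, hτ₁⟩ := eventually_atTop.1
    ((tendsto_rpow_neg_atTop hκ0).eventually_lt_const (by norm_num : (0 : ℝ) < 1 / 2))
  obtain ⟨n₀, hn₀⟩ := exists_nat_gt (max 1 (max τ₀ τ₁))
  refine ⟨n₀, fun n hn => ?_⟩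
  have hn1 : max 1 (max τ₀ τ₁) < (n : ℝ) := hn₀.trans_le (by exact_mod_cast hn)
  have hn2 : 1 < (n : ℝ) := (le_max_left _ _).trans_lt hn1
  have hn3 : τ₀ < (n : ℝ) := ((le_max_left _ _).trans (le_max_right _ _)).trans_lt hn1
  have hn4 : τ₁ < (n : ℝ) := ((le_max_right _ _).trans (le_max_right _ _)).trans_lt hn1
  have h8 := hτ₀ ((n : ℝ) + 1 / 2) (1 / 2) (by linarith) (hτ₁ _ (by linarith)).le (by norm_num)
  have h9 : 0 < 2 * (1 / 2) * density c * ((n : ℝ) + 1 / 2) ^ (sigma c - 1) := by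
    have : 0 < ((n : ℝ) + 1 / 2) ^ (sigma c - 1) := Real.rpow_pos_of_pos (by linarith) _
    positivity
  have h10 : 0 < (solutions c ((n : ℝ) + 1 / 2) (1 / 2) : ℝ) := by
    have := (abs_le.1 h8).1
    linarith
  have h11 : 0 < solutions c ((n : ℝ) + 1 / 2) (1 / 2) := by exact_mod_cast h10
  obtain ⟨x, hx⟩ := (Nat.card_pos_iff.1 h11).1
  refine ⟨x, ?_⟩
  rw [abs_lt] at hx
  rw [Nat.floor_eq_iff' ?_]
  · constructor
    · linarith [hx.1]
    · linarith [hx.2]
  · intro h12
    rw [h12] at hn2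
    norm_num at hn2

end Pool.Agent.Results.MP_efcac8_nt.AlmostAllExponents
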